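import Pool.Agent.Y501.SY.StmG
import Pool.Agent.Y484.SY.Gen

/-! The product rule for a smooth function times a smooth one-form on a manifold. -/

set_option autoImplicit false

open Set Filter Topology
open scoped Manifold ContDiff

noncomputable section

namespace Pool.Agent.Y658.SY

open Pool.Agent.Y501.SY Pool.Agent.Y484.SY

section lin

variable {V W : Type} [NormedAddCommGroup V] [NormedSpace ℝ V] [NormedAddCommGroup W]
  [NormedSpace ℝ W]

theorem wedge1_apply (a : V →L[ℝ] ℝ) (b : V [⋀^Fin 1]→L[ℝ] ℝ) (v : Fin 2 → V) :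
    wedge1 a b v = a (v 0) * b (fun _ => v 1) - a (v 1) * b (fun _ => v 0) := by
  unfold wedge1
  rw [ContinuousAlternatingMap.alternatizeUncurryFin_apply, Fin.sum_univ_two]
  have e0 : Fin.removeNth (0 : Fin 2) v = fun _ => v 1 := by
    funext i
    rw [Subsingleton.elim i 0]
    rfl
  have e1 : Fin.removeNth (1 : Fin 2) v = fun _ => v 0 := by
    funext i
    rw [Subsingleton.elim i 0]
    rfl
  rw [e0, e1]
  simp
  ring

theorem smooth_wedge1 {U : Set W} {a : W → V →L[ℝ] ℝ} {b : W → V [⋀^Fin 1]→L[ℝ] ℝ}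
    (ha : ContDiffOn ℝ ∞ a U) (hb : ContDiffOn ℝ ∞ b U) :
    ContDiffOn ℝ ∞ (fun p => wedge1 (a p) (b p)) U := by
  have h1 : ContDiffOn ℝ ∞ (fun p => (a p).smulRight (b p)) U := ha.smulRight hb
  exact (ContinuousAlternatingMap.alternatizeUncurryFinCLM ℝ V ℝ).contDiff.comp_contDiffOn h1

/-- the exterior derivative of `F B` -/
theorem ext_prod {F : V → ℝ} {B : V → V [⋀^Fin 1]→L[ℝ] ℝ} {p : V} (hF : DifferentiableAt ℝ F p)
    (hB : DifferentiableAt ℝ B p) :
    extDeriv (fun p => F p • B p) p = wedge1 (fderiv ℝ F p) (B p) + F p • extDeriv B p := by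
  unfold extDeriv
  rw [fderiv_fun_smul hF hB, ContinuousAlternatingMap.alternatizeUncurryFin_add,
    ContinuousAlternatingMap.alternatizeUncurryFin_smul]
  exact add_comm _ _

end lin

variable {d : ℕ} {X : Type} [TopologicalSpace X] [ChartedSpace (E d) X]
  [IsManifold (𝓡 d) ∞ X]

theorem pb_prodD {U : Set (E d)} (hU : IsOpen U) {φ : E d → X}
    (hφ : ContMDiffOn (𝓡 d) (𝓡 d) ∞ φ U) {u : X → ℝ} {β : Form d X 1} {ρ : Form d X 2}
    (hu : SmoothFun (d := d) u) {p : E d} (hp : p ∈ U) :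
    pb φ (prodD u β ρ) p = wedge1 (fderiv ℝ (u ∘ φ) p) (pb φ β p) + (u ∘ φ) p • pb φ ρ p := by
  ext v
  rw [ContinuousAlternatingMap.add_apply, wedge1_apply, ← dd_comp hU hφ hu hp,
    ← dd_comp hU hφ hu hp]
  have h := wedge1_apply (V := E d) (dd u (φ p)) (β (φ p))
    (fun i => mfderiv (𝓡 d) (𝓡 d) φ p (v i))
  exact congrArg (fun t => t + u (φ p) * ρ (φ p) (fun i => mfderiv (𝓡 d) (𝓡 d) φ p (v i))) h

/-- **the product rule** -/
theorem t_PROD : S_PROD := by
  intro d X _ _ _ u β ρ hu hβ hρ hD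
  have hS1 : IsSmooth (fun x => u x • β x : Form d X 1) := by
    intro U φ hU hφ
    exact (comp_smooth hφ hu).smul (hβ U φ hU hφ)
  have hS2 : IsSmooth (prodD u β ρ) := by
    intro U φ hU hφ
    refine ContDiffOn.congr ?_ fun p hp => pb_prodD hU hφ hu hp
    exact (smooth_wedge1 ((comp_smooth hφ hu).fderiv_of_isOpen hU (by simp)) (hβ U φ hU hφ)).add
      ((comp_smooth hφ hu).smul (hρ U φ hU hφ))
  have hDD : IsD (fun x => u x • β x : Form d X 1) (prodD u β ρ) := by
    intro U φ hU hφ p hp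
    have hF : DifferentiableAt ℝ (u ∘ φ) p :=
      ((comp_smooth hφ hu).contDiffAt (hU.mem_nhds hp)).differentiableAt (by simp)
    have hB : DifferentiableAt ℝ (pb φ β) p :=
      ((hβ U φ hU hφ).contDiffAt (hU.mem_nhds hp)).differentiableAt (by simp)
    rw [pb_prodD hU hφ hu hp, ← hD U φ hU hφ p hp, ← ext_prod hF hB]
    rfl
  refine ⟨hS1, hS2, hDD, ?_, ?_⟩
  · intro U φ hU hφ p hp
    have h1 : pb φ (prodD u β ρ) =ᶠ[𝓝 p] extDeriv (pb φ (fun x => u x • β x : Form d X 1)) := by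
      filter_upwards [hU.mem_nhds hp] with y hy
      exact (hDD U φ hU hφ y hy).symm
    rw [h1.extDeriv_eq, extDeriv_extDeriv_apply (r := ∞)
      ((hS1 U φ hU hφ).contDiffAt (hU.mem_nhds hp)) two_le]
    rfl
  · intro x v w
    have h := wedge1_apply (V := E d) (dd u x) (β x) ![v, w]
    have ev : (fun _ : Fin 1 => v) = ![v] := by
      funext i
      rw [Subsingleton.elim i 0]
      rfl
    have ew : (fun _ : Fin 1 => w) = ![w] := by
      funext i
      rw [Subsingleton.elim i 0]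
      rfl
    refine (congrArg (fun t => t + u x * ρ x ![v, w]) h).trans ?_
    show dd u x v * β x (fun _ : Fin 1 => w) - dd u x w * β x (fun _ : Fin 1 => v) +
      u x * ρ x ![v, w] = _
    rw [ev, ew]

end Pool.Agent.Y658.SY
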